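import Pool.Agent.Run7.h668.TK.Tab

set_option autoImplicit false

namespace Pool.Agent.Run7.h668.TK

open Polynomial

theorem cnt_zero (ℓ : List ℕ) : cnt ℓ 0 = 1 := by
  induction ℓ with
  | nil => simp [cnt]
  | cons A ℓ ih =>
    rw [cnt, Finset.sum_eq_single 0]
    · simp [ih]
    · intro e _ he
      rw [if_neg (by omega)]
    · intro h
      simp at h

theorem fpoly_deg (n s : ℕ) : (fpoly n s).natDegree ≤ n - 2 := by
  unfold fpoly
  refine (Polynomial.natDegree_prod_le _ _).trans ?_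
  calc ∑ i ∈ Finset.range (n - 2), (X - C (s : ℚ) + C ((i : ℚ) + 1)).natDegree
      ≤ ∑ i ∈ Finset.range (n - 2), 1 := by
        apply Finset.sum_le_sum
        intro i _
        have : (X - C (s : ℚ) + C ((i : ℚ) + 1) : ℚ[X]) = X + C ((i : ℚ) + 1 - s) := by
          simp only [C_add, C_sub]; ring
        rw [this, Polynomial.natDegree_X_add_C]
    _ = n - 2 := by simp

theorem rowLen_pos {mu : YoungDiagram} {v : ℕ} (hv : v < mu.colLen 0) : 1 ≤ mu.rowLen v := by
  have h : (v, 0) ∈ mu := YoungDiagram.mem_iff_lt_colLen.mpr hv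
  exact YoungDiagram.mem_iff_lt_rowLen.mp h

theorem rowLen_zero {mu : YoungDiagram} {v : ℕ} (hv : mu.colLen 0 ≤ v) : mu.rowLen v = 0 := by
  by_contra h
  have h1 : (v, 0) ∈ mu := YoungDiagram.mem_iff_lt_rowLen.mpr (by omega)
  have := YoungDiagram.mem_iff_lt_colLen.mp h1
  omega

theorem rev_split (A : ℕ → ℕ) (m : ℕ) : ∃ ℓ : List ℕ, ((List.range (m + 2)).map A).reverse =
    ℓ ++ [A 1, A 0] ∧ ℓ.length = m := by
  induction m with
  | zero => exact ⟨[], by simp [List.range_succ], rfl⟩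
  | succ m ih =>
    obtain ⟨ℓ, h, hl⟩ := ih
    refine ⟨A (m + 2) :: ℓ, ?_, by simp [hl]⟩
    rw [show m + 1 + 2 = (m + 2) + 1 from rfl, rev_range_succ, h]
    rfl

theorem rev_split1 (A : ℕ → ℕ) (m : ℕ) : ∃ ℓ : List ℕ, ((List.range (m + 1)).map A).reverse =
    ℓ ++ [A 0] := by
  induction m with
  | zero => exact ⟨[], by simp [List.range_succ]⟩
  | succ m ih =>
    obtain ⟨ℓ, h⟩ := ih
    refine ⟨A (m + 1) :: ℓ, ?_⟩
    rw [rev_range_succ, h]
    rfl

theorem t_FIN : S_FIN := by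
  intro hPSM hPSZ hVAL hCN1 hCN2 hCMP hTAB hCZR hCAR hWCN la mu hla
  set n := mu.colLen 0 with hn
  set p := la.rowLen 0 with hp
  set q := la.rowLen 1 with hq
  set M := ∑ v ∈ Finset.range n, mu.rowLen v with hM
  have hpq : q ≤ p := la.rowLen_anti 0 1 (by omega)
  -- the row lengths of D
  have hrow : ∀ (k : ℕ) (D : YoungDiagram), (∀ i j : ℕ, (i, j) ∈ D ↔ j < k * la.rowLen i) →
      ∀ i, D.rowLen i = k * la.rowLen i := by
    intro k D hD i
    have h : ∀ j, j < D.rowLen i ↔ j < k * la.rowLen i := by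
      intro j
      rw [← YoungDiagram.mem_iff_lt_rowLen]
      exact hD i j
    have h1 := (h (k * la.rowLen i)).not.mpr (by omega)
    have h2 := (h (D.rowLen i)).not.mp (by omega)
    omega
  have hAv : ∀ (k v : ℕ), n ≤ v → k * mu.rowLen v = 0 := by
    intro k v hv
    rw [rowLen_zero hv, Nat.mul_zero]
  have hsum : ∀ k : ℕ, ∑ v ∈ Finset.range n, k * mu.rowLen v = k * M := by
    intro k; rw [hM, Finset.mul_sum]
  have hcard : ∀ (k : ℕ) (D : YoungDiagram), (∀ i j : ℕ, (i, j) ∈ D ↔ j < k * la.rowLen i) →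
      D.card = k * (p + q) := by
    intro k D hD
    have h2 : D.rowLen 2 = 0 := by rw [hrow k D hD, hla, Nat.mul_zero]
    rw [card_two h2, hrow k D hD, hrow k D hD]
    ring
  by_cases hMpq : p + q = M
  swap
  · -- no tableaux
    refine ⟨0, ?_, by simp⟩
    intro k hk D hD
    have hempty : IsEmpty {T : SemistandardYoungTableau D //
        ∀ v : ℕ, Nat.card {c : ℕ × ℕ // c ∈ D ∧ T c.1 c.2 = v} = k * mu.rowLen v} := by
      constructor
      rintro ⟨T, hT⟩
      have h := hCAR n D (fun v => k * mu.rowLen v) (hAv k) T hT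
      rw [hcard k D hD, hsum] at h
      exact hMpq (Nat.eq_of_mul_eq_mul_left (by omega) h)
    rw [Nat.card_eq_zero.mpr (Or.inl hempty)]
    simp
  -- the count
  have hcount : ∀ (k : ℕ) (D : YoungDiagram), (∀ i j : ℕ, (i, j) ∈ D ↔ j < k * la.rowLen i) →
      Nat.card {T : SemistandardYoungTableau D //
        ∀ v : ℕ, Nat.card {c : ℕ × ℕ // c ∈ D ∧ T c.1 c.2 = v} = k * mu.rowLen v} =
      cnt (((List.range n).map fun v => k * mu.rowLen v).reverse) (k * q) := by
    intro k D hD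
    have h2 : D.rowLen 2 = 0 := by rw [hrow k D hD, hla, Nat.mul_zero]
    have h := hTAB n D (fun v => k * mu.rowLen v) (hAv k) h2
      (by rw [hcard k D hD, hsum, hMpq])
    rw [h, hrow k D hD]
  rcases Nat.eq_zero_or_pos q with hq0 | hq0
  · refine ⟨1, ?_, ?_⟩
    · intro k hk D hD
      rw [hcount k D hD, hq0, Nat.mul_zero, cnt_zero]
      simp
    · intro m
      rw [Polynomial.coeff_one]
      split_ifs <;> norm_num
  have hn0 : n ≠ 0 := by
    intro h0
    rw [h0] at hM
    simp at hM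
    omega
  obtain ⟨n1, hn1⟩ : ∃ n1, n = n1 + 1 := ⟨n - 1, by omega⟩
  have hparts : ∀ v, v < n → mu.rowLen v ≤ mu.rowLen 0 := fun v _ => mu.rowLen_anti 0 v (by omega)
  have hM0 : mu.rowLen 0 ≤ M := by
    rw [hM]
    exact Finset.single_le_sum (f := fun v => mu.rowLen v) (fun _ _ => Nat.zero_le _)
      (Finset.mem_range.mpr (by omega))
  by_cases hbig : M - mu.rowLen 0 < q
  · refine ⟨0, ?_, by simp⟩
    intro k hk D hD
    rw [hcount k D hD]
    obtain ⟨ℓ, hℓ⟩ := rev_split1 (fun v => k * mu.rowLen v) n1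
    rw [hn1, hℓ, hCZR]
    · simp
    · have hs := rev_range_sum (fun v => k * mu.rowLen v) (n1 + 1)
      rw [hℓ, ← hn1, hsum] at hs
      simp only [List.sum_append, List.sum_cons, List.sum_nil, add_zero] at hs
      have h1 : ℓ.sum + k * mu.rowLen 0 = k * M := hs
      have h2 : k * M < k * q + k * mu.rowLen 0 := by
        rw [← Nat.mul_add]
        exact (Nat.mul_lt_mul_left (by omega)).mpr (by omega)
      omega
  -- main case
  have hpos1 : ∀ v, v < n → 1 ≤ mu.rowLen v := fun v hv => rowLen_pos hv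
  have hn2 : 1 ≤ n1 := by
    by_contra h
    have h0 : n = 1 := by omega
    have : M = mu.rowLen 0 := by rw [hM, h0]; simp
    omega
  obtain ⟨m0, hm0⟩ : ∃ m0, n = m0 + 2 := ⟨n - 2, by omega⟩
  obtain ⟨ℓ, hℓ, hlen⟩ := rev_split (fun v => mu.rowLen v) m0
  set c := mu.rowLen 1 with hc
  set c' := mu.rowLen 0 with hc'
  have hparts' : ((List.range n).map fun v => mu.rowLen v).reverse = ℓ ++ [c, c'] := by
    rw [hm0]; exact hℓ
  have hmem : ∀ a ∈ ℓ ++ [c, c'], 1 ≤ a ∧ a ≤ c' := by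
    intro a ha
    rw [← hparts', List.mem_reverse, List.mem_map] at ha
    obtain ⟨v, hv, rfl⟩ := ha
    rw [List.mem_range] at hv
    exact ⟨hpos1 v hv, hparts v hv⟩
  have hsumL : (ℓ ++ [c, c']).sum = M := by
    rw [← hparts', rev_range_sum]
  have hlenL : (ℓ ++ [c, c']).length = n := by
    rw [← hparts']; simp
  have hscale : ∀ k : ℕ, ((List.range n).map fun v => k * mu.rowLen v).reverse =
      (ℓ ++ [c, c']).map (k * ·) := by
    intro k
    rw [← hparts', List.map_reverse, List.map_map]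
    rfl
  have hqa : ∀ a ∈ ℓ ++ [c, c'], q ≤ (ℓ ++ [c, c']).sum - a := by
    intro a ha
    have := (hmem a ha).2
    rw [hsumL]; omega
  set W := WW c c' ℓ with hW
  set Dg := max (W.eval 1).natDegree (n - 2) with hDg
  set cm : ℕ → ℚ := fun m => ∑ b ∈ Finset.range q,
      ((W.eval 1).coeff m).coeff b * ((q - b : ℕ) : ℚ) ^ m with hcm
  have hfac : (0 : ℚ) < (((n - 2).factorial : ℕ) : ℚ) := by
    exact_mod_cast Nat.factorial_pos _
  have hcone : W ∈ Cone (ℓ.length + 2) (c + c' + ℓ.sum) := by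
    apply hWCN
    · exact (hmem c (by simp)).1
    · exact (hmem c' (by simp)).1
    · intro a ha
      exact (hmem a (by simp [ha])).1
  have hcm0 : ∀ m, 0 ≤ cm m := by
    intro m
    rcases Nat.eq_zero_or_pos m with hm | hm
    · subst hm
      have h := hPSZ c c' ℓ q (hmem c (by simp)).1 (hmem c' (by simp)).1
        (fun a ha => (hmem a (by simp [ha])).1) hq0 hqa
      simp only [hcm, pow_zero, mul_one]
      exact h
    · apply hPSM _ _ q m hm _ W hcone
      have : c + c' + ℓ.sum = M := by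
        rw [← hsumL]; simp; ring
      rw [this]; omega
  refine ⟨C ((((n - 2).factorial : ℕ) : ℚ)⁻¹) *
    ∑ m ∈ Finset.range (Dg + 1), C (cm m) * X ^ m, ?_, ?_⟩
  · intro k hk D hD
    rw [hcount k D hD, hscale k]
    have h1 := hCN1 ((ℓ ++ [c, c']).map (k * ·)) (k * q) (by
      have : ((ℓ ++ [c, c']).map (k * ·)).sum = k * M := by
        rw [← hsumL, List.sum_map_mul_left]; simp
      rw [this]
      have : 2 * q ≤ M := by omega
      calc 2 * (k * q) = k * (2 * q) := by ring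
        _ ≤ k * M := Nat.mul_le_mul_left _ this)
    have h2 := hCN2 (ℓ ++ [c, c']) k (k * q) (by rw [hlenL]; omega)
    have h3 := hCMP (ℓ ++ [c, c']) k q (by rw [hlenL]; omega) hk hq0
      (fun a ha => (hmem a ha).1) hqa
    have h4 := hVAL c c' ℓ q k Dg (by rw [← hW]; exact le_max_left _ _) (by
      intro s
      refine (fpoly_deg _ _).trans ?_
      have : ℓ.length + 2 - 2 = n - 2 := by omega
      rw [this]
      exact le_max_right _ _)
    rw [← hW] at h4
    have hl : ℓ.length + 2 = (ℓ ++ [c, c']).length := by simp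
    rw [hl, ← h3] at h4
    have h5 : ((cnt ((ℓ ++ [c, c']).map (k * ·)) (k * q) : ℕ) : ℚ) =
        ssum (ℓ ++ [c, c']) (fun s b => if k * b + s ≤ q * k then
          (((q * k - k * b - s) + ((ℓ ++ [c, c']).length - 2)).choose
            ((ℓ ++ [c, c']).length - 2) : ℚ) else 0) := by
      rw [Nat.mul_comm q k, ← h2]
      have : ((cnt ((ℓ ++ [c, c']).map (k * ·)) (k * q) : ℕ) : ℚ) =
          (((cnt ((ℓ ++ [c, c']).map (k * ·)) (k * q) : ℕ) : ℤ) : ℚ) := by norm_cast
      rw [this, h1]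
    rw [h5, Polynomial.eval_mul, Polynomial.eval_C, Polynomial.eval_finset_sum]
    have h6 : ∑ m ∈ Finset.range (Dg + 1), (C (cm m) * X ^ m : ℚ[X]).eval (k : ℚ) =
        ∑ m ∈ Finset.range (Dg + 1), cm m * (k : ℚ) ^ m := by
      refine Finset.sum_congr rfl fun m _ => ?_
      simp
    rw [h6]
    have h7 : ∑ m ∈ Finset.range (Dg + 1), cm m * (k : ℚ) ^ m =
      (((ℓ ++ [c, c']).length - 2).factorial : ℚ) * ssum (ℓ ++ [c, c']) (fun s b => if k * b + s ≤ q * k then
          (((q * k - k * b - s) + ((ℓ ++ [c, c']).length - 2)).choose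
            ((ℓ ++ [c, c']).length - 2) : ℚ) else 0) := h4
    rw [h7, hlenL, ← mul_assoc, inv_mul_cancel₀ (ne_of_gt hfac), one_mul]
  · intro m
    rw [Polynomial.coeff_C_mul, Polynomial.finset_sum_coeff]
    apply mul_nonneg (inv_nonneg.mpr hfac.le)
    apply Finset.sum_nonneg
    intro i _
    rw [Polynomial.coeff_C_mul, Polynomial.coeff_X_pow]
    split_ifs
    · rw [mul_one]; exact hcm0 i
    · rw [mul_zero]

end Pool.Agent.Run7.h668.TK
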