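import Mathlib

/-!
# Project TK (helper668): stretched Kostka polynomials of two-row shapes have non-negative coefficients

Page MP_0df73a_co.  Target: for every Young diagram `la` with at most two rows and every `mu` there is
`P : ℚ[X]` with non-negative coefficients and `P(k) = K_{k la, k mu}` for all `k ≥ 1`.

Notation in the doc strings: `mu` has `n` positive parts `a_1, .., a_n`, total `M`; `la = (M - q, q)`,
`2 q ≤ M`.  For a set `S` of parts, `s = |S|`, `a_S` its sum.  Then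
`K_{N la, N mu} = Σ_S (-1)^s C(N (q - a_S) - s + n - 2, n - 2)` over `S` with `a_S < q`.
With `f_s(u) = ∏_{i=1}^{n-2} (u - s + i)` one has the identity
`Σ_S (-1)^s z^{a_S} f_s(u) = Σ_{structures} u^m ∏_{cycles C} (1 - z^{a_C}) · (ρ-2)! (1 - z) G_R(z)`,
a structure being `m` cycles on a subset of the parts and the rest `R` (`ρ ≥ 2` parts), with
`G_R = [h] - Σ_{a ∈ R} z^{h-a} [a]`, `h = sum R`, `[k] = 1 + z + .. + z^{k-1}`.
So the coefficient of `N^m` is, up to `(n-2)!`, the coefficient of `z^q` in a sum of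
`A_m(z) ∏ [a_C] G_R(z)`, `A_m` the Eulerian polynomial, which is `≥ 0` for `2 q ≤ M` because
`A_m ∏ [a_C]` is symmetric and unimodal.
-/

set_option autoImplicit false

namespace Pool.Agent.Run7.h668.TK

open Polynomial

/-! ## 1. Symmetric unimodal sequences -/

/-- symmetric unimodal sequences on `ℤ` with centre `d / 2` -/
def SU (d : ℤ) (f : ℤ → ℚ) : Prop :=
  (∀ i, f i = f (d - i)) ∧ (∀ i, 2 * i ≤ d + 1 → f (i - 1) ≤ f i)

/-- multiplication by `1 + z + ... + z^(k-1)` -/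
def bk (k : ℕ) (f : ℤ → ℚ) : ℤ → ℚ := fun i => ∑ l ∈ Finset.range k, f (i - l)

/-- coefficients of the Eulerian polynomials `A_0 = 1`, `A_{m+1} = z (1-z) A_m' + (m+1) z A_m`,
for which `Σ_r r^m z^r = A_m(z) / (1-z)^(m+1)` -/
def eul : ℕ → ℤ → ℚ
  | 0, i => if i = 0 then 1 else 0
  | m + 1, i => i * eul m i + (m + 2 - i) * eul m (i - 1)

/-- **SUE.** Proof.  First `eul m i = 0` for `m ≥ 1`, `i ≤ 0` (induction on `m`; for `m + 1` and
`i ≤ 0`: `i * eul m i` is `0` both when `i = 0` and when `i < 0`; `eul m (i-1) = 0`).  Also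
`eul 1 i = if i = 1 then 1 else 0`.  Then induction on `m ≥ 1`.  Write `E = eul m`.
Symmetry: `E_{m+1}(m+2-i) = (m+2-i) E(m+2-i) + i E(m+1-i) = (m+2-i) E(i-1) + i E(i)`.
Monotone: `E_{m+1}(i) - E_{m+1}(i-1) = i (E(i) - E(i-1)) + (m+3-i) (E(i-1) - E(i-2))` (ring identity).
Let `2 i ≤ m + 3`.  If `i ≤ 0` all terms are `0`.  If `i ≥ 1` and `2 i ≤ m + 2` both differences are
`≥ 0` by induction and so are the factors.  If `2 i = m + 3`, symmetry gives `E(i) = E(i-2)`, so the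
sum is `(m+3-2i) (E(i-1) - E(i-2)) = 0`. -/
def S_SUE : Prop := (∀ m : ℕ, ∀ i : ℤ, i < 0 → eul m i = 0) ∧
  ∀ m : ℕ, 1 ≤ m → SU (m + 1) (eul m)

/-- **SUG.** Proof.  First: `i ≤ j`, `2 j ≤ d + 1` give `f i ≤ f j` (induction on `j - i`).  Now let
`2 i ≤ d + k`.  If `2 i ≤ d + 1` use the first fact for `i - k ≤ i`.  Otherwise `f i = f (d - i)` with
`2 (d - i) ≤ d + 1` and `i - k ≤ d - i`. -/
def S_SUG : Prop := ∀ (d : ℤ) (f : ℤ → ℚ), SU d f → ∀ (k : ℕ) (i : ℤ), 2 * i ≤ d + k →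
  f (i - k) ≤ f i

/-- **SUB.** Proof.  Symmetry: reflect the sum (`Finset.sum_range_reflect`).  Monotone: for `k ≥ 1`,
`bk k f i - bk k f (i-1) = f i - f (i - k) ≥ 0` for `2 i ≤ d + k` by SUG. -/
def S_SUB : Prop := ∀ (d : ℤ) (f : ℤ → ℚ) (k : ℕ), 1 ≤ k → SU d f → SU (d + k - 1) (bk k f)

/-- **PAIR.** Let `h = R.sum`.  Proof.  Let `a1` be the largest element of `R`, `R` a permutation of
`a1 :: R'`, `o = R'.sum = h - a1`.  As `bk h U q = bk o U q + bk a1 U (q - o)` (split the range), the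
claim is `Σ_{a ∈ R'} bk a U (q - (h - a)) ≤ bk o U q`.  More generally, for every list `L` with all
elements `≤ a1` and every `σ` with `σ + L.sum ≤ o`:
`Σ_{a ∈ L} bk a U (q - (h - a)) ≤ bk L.sum U (q - σ)`, by induction on `L`: for the head `a` compare
`bk a U (q - (h - a)) = Σ_{k<a} U (q - (h - 1 - k))` (reflected range) with
`bk a U (q - σ) = Σ_{k<a} U (q - σ - k)` term by term with SUG (`i = q - σ - k`, gap
`h - 1 - σ - 2 k ≥ 0`, because `σ + a ≤ o`, `k ≤ a - 1`, `a ≤ a1`, `h = o + a1`; and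
`2 (q - σ - k) ≤ d + (h - 1 - σ - 2 k)` follows from `2 q ≤ d + h - 1`), and use the
induction hypothesis with `σ + a` for the tail (`bk (a + t) U x = bk a U x + bk t U (x - a)`). -/
def S_PAIR : Prop := ∀ (R : List ℕ), R ≠ [] → (∀ a ∈ R, 1 ≤ a) → ∀ (d : ℤ) (U : ℤ → ℚ), SU d U →
  ∀ q : ℤ, 2 * q ≤ d + R.sum - 1 →
    (R.map fun a => bk a U (q - ((R.sum : ℤ) - a))).sum ≤ bk R.sum U q

/-! ## 2. Polynomials in z -/

/-- `[k] = 1 + z + .. + z^(k-1)` -/
noncomputable def qn (k : ℕ) : ℚ[X] := ∑ l ∈ Finset.range k, X ^ l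

/-- `G_R` -/
noncomputable def gR (R : List ℕ) : ℚ[X] :=
  qn R.sum - (R.map fun a => X ^ (R.sum - a) * qn a).sum

/-- coefficient at `q` of the product of the sequence `f` and the polynomial `Y` -/
noncomputable def conv (f : ℤ → ℚ) (Y : ℚ[X]) (q : ℤ) : ℚ := Y.sum fun b c => c * f (q - b)

/-- **CVB.** Proof.  Additivity is `Polynomial.sum_add_index`; for the others check monomials
(`Polynomial.sum_monomial_index` / `sum_C_mul_X_pow_eq`), everything is linear in `Y`. -/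
def S_CVB : Prop :=
  (∀ (f : ℤ → ℚ) (Y Y' : ℚ[X]) (q : ℤ), conv f (Y + Y') q = conv f Y q + conv f Y' q) ∧
  (∀ (f : ℤ → ℚ) (c : ℚ) (Y : ℚ[X]) (q : ℤ), conv f (C c * Y) q = c * conv f Y q) ∧
  (∀ (f : ℤ → ℚ) (e : ℕ) (Y : ℚ[X]) (q : ℤ), conv f (X ^ e * Y) q = conv f Y (q - e)) ∧
  (∀ (f : ℤ → ℚ) (k : ℕ) (Y : ℚ[X]) (q : ℤ), conv f (qn k * Y) q = conv (bk k f) Y q) ∧
  (∀ (f : ℤ → ℚ) (k : ℕ) (q : ℤ), conv f (qn k) q = bk k f q)

/-- **EPS.** Proof.  In `ℚ⟦z⟧` put `P_m = mk (fun r => (r:ℚ)^m)` and `E_m = mk (fun r => eul m r)`.  Then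
`(1-X)^(m+1) * P_m = E_m` by induction on `m`: `P_{m+1} = X P_m'`; differentiate
`(1-X)^(m+1) P_m = E_m`, multiply by `X (1-X)`, and compare with
`E_{m+1} = X (1-X) E_m' + (m+1) X E_m` (coefficients: `i e_i - (i-1) e_{i-1} + (m+1) e_{i-1}`).  So for a
polynomial `Y` the coefficient of `z^q` in `P_m * ((1-X)^(m+1) Y) = E_m * Y` is the claim; on the right
`Y.sum` may be cut at `b ≤ q` because `eul m i = 0` for `i < 0` (that part of SUE is easy). -/
def S_EPS : Prop := ∀ (m q : ℕ) (Y : ℚ[X]),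
  ∑ b ∈ Finset.range (q + 1), ((q - b : ℕ) : ℚ) ^ m * (((1 - X) ^ (m + 1) * Y).coeff b)
    = conv (eul m) Y q

/-- **POS.** Proof.  By CVB, `conv (eul m) ((cs.map qn).prod * gR R) q = conv U (gR R) q` with
`U = cs.foldr bk (eul m)` and this is
`bk h U q - Σ_{a ∈ R} bk a U (q - (h - a))`, `h = R.sum` (`gR` unfolded, `conv f (-Y) = - conv f Y`;
`((h - a : ℕ) : ℤ) = h - a` as `a ≤ h`).  By SUE and SUB, `SU (1 + cs.sum) U` for `m = cs.length ≥ 1`
(induction on a sublist: `SU (m + 1 + Σ (c - 1))`).  Conclude by PAIR with `d = 1 + cs.sum`. -/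
def S_POS : Prop := ∀ (cs R : List ℕ), cs ≠ [] → R ≠ [] → (∀ a ∈ cs, 1 ≤ a) → (∀ a ∈ R, 1 ≤ a) →
  ∀ q : ℕ, 2 * q ≤ cs.sum + R.sum → 0 ≤ conv (eul cs.length) ((cs.map qn).prod * gR R) q

/-- **POZ.** Proof.  All exponents `R.sum - a` and `R.sum` are `≥ q` (for the last one note `R ≠ []`), so
only the `1` counts. -/
def S_POZ : Prop := ∀ (R : List ℕ) (q : ℕ), R ≠ [] → 1 ≤ q → (∀ a ∈ R, q ≤ R.sum - a) →
  ∑ b ∈ Finset.range q,
    ((1 : ℚ[X]) - (R.map fun a => X ^ (R.sum - a)).sum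
      + ((R.length - 1 : ℕ) : ℚ[X]) * X ^ R.sum).coeff b = 1

/-! ## 3. The ring ℚ[z][u][x] and the insertion operator -/

/-- polynomials in `x` over polynomials in `u` over polynomials in `z` -/
abbrev BB := Polynomial (Polynomial (Polynomial ℚ))

/-- `x^k z^c` -/
noncomputable def tt (k c : ℕ) : BB := X ^ k * C (C (X ^ c))

/-- `u` -/
noncomputable def uu : BB := C X

/-- `x d/dx` -/
noncomputable def opE (P : BB) : BB := X * derivative P

/-- insertion of a part `a` -/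
noncomputable def ins (N a : ℕ) (P : BB) : BB :=
  (uu * (1 - tt 1 a) + (N : BB)) * P - (1 - tt 1 a) * opE P

/-- the polynomial `Σ_S (-1)^s x^s z^{a_S} f_s(u)` of the parts `c, c', ℓ` -/
noncomputable def WW (c c' : ℕ) : List ℕ → BB
  | [] => (1 - tt 1 c) * (1 - tt 1 c')
  | a :: ℓ => ins (ℓ.length + 1) a (WW c c' ℓ)

/-- the `x`-version of `(1 - z) G_R` -/
noncomputable def gx (R : List ℕ) : BB :=
  1 - (R.map fun a => tt (R.length - 1) (R.sum - a)).sum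
    + ((R.length - 1 : ℕ) : BB) * tt R.length R.sum

/-- the polynomial of a structure: cycles `(size, capacity)` and the rest `R` -/
noncomputable def st (cyc : List (ℕ × ℕ)) (R : List ℕ) : BB :=
  (cyc.map fun p => uu * (1 - tt p.1 p.2)).prod * (((R.length - 2).factorial : ℕ) : BB) * gx R

/-- structures on `n` parts with sum `M` -/
def Valid (n M : ℕ) (cyc : List (ℕ × ℕ)) (R : List ℕ) : Prop :=
  (∀ p ∈ cyc, 1 ≤ p.1 ∧ 1 ≤ p.2) ∧ 2 ≤ R.length ∧ (∀ a ∈ R, 1 ≤ a) ∧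
    (cyc.map Prod.fst).sum + R.length = n ∧ (cyc.map Prod.snd).sum + R.sum = M

/-- the cone spanned by the structures -/
noncomputable def Cone (n M : ℕ) : AddSubmonoid BB :=
  AddSubmonoid.closure {P | ∃ cyc R, Valid n M cyc R ∧ P = st cyc R}

/-- **INS.** Proof.  `ins` is additive in `P`, so by `AddSubmonoid.closure_induction` take
`P = st cyc R`, `K = Σ sizes`, `ρ = R.length`, `n = K + ρ`, `h = R.sum`, `t = tt 1 a`.
Write `O N Q = N * Q - (1 - t) * opE Q`.  `opE` is a derivation (`opE (P Q) = opE P * Q + P * opE Q`),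
`opE (tt k c) = k * tt k c`, so `O (N1 + N2) (Q1 Q2) = O N1 Q1 * Q2 + Q1 * O N2 Q2`.
(i) `O k (uu (1 - tt k c)) = k * (uu (1 - tt (k+1) (c+a)))` (because `tt 1 a * tt k c = tt (k+1) (c+a)`).
(ii) `O (ρ-1) (gx R) = (ρ-1) * gx (a :: R)` for `ρ ≥ 1` and `a' ≤ h` for `a' ∈ R`:
`opE (gx R) = -(ρ-1) Σ tt (ρ-1) (h-a') + ρ (ρ-1) tt ρ h`, so `O (ρ-1) (gx R) =
(ρ-1) (1 - tt ρ h - Σ_{a'} tt ρ (h + a - a') + ρ tt (ρ+1) (h+a))`, and `tt ρ h = tt ρ ((h+a) - a)` is the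
new term of the sum; and `(ρ-2)! (ρ-1) = (ρ-1)!`.
(iii) `ins (n-1) a (st cyc R) = uu (1-t) * st cyc R + O K (∏) * (ρ-2)! gx R + ∏ * (ρ-2)! O (ρ-1) (gx R)`;
the first is `st ((1,a) :: cyc) R`, the third is `st cyc (a :: R)`, and `O K (∏)` is, by induction
on `cyc`, `Σ_i k_i ∏ (cycle i replaced by (k_i + 1, c_i + a))`, so the second one is a sum of `st`'s.
For the induction prove: for every `Q` with a suitable property the element `O K (∏_{cyc}) * Q` lies in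
the cone, e.g. generalise over a prefix `pre` of cycles: `∏_{pre} * O K (∏_{cyc}) * (ρ-2)! gx R ∈ Cone`. -/
def S_INS : Prop := ∀ (n M a : ℕ), 1 ≤ a → ∀ P ∈ Cone n M, ins (n - 1) a P ∈ Cone (n + 1) (M + a)

/-- **WCN.** Proof.  Induction on `ℓ` with INS; the base is `st [] [c, c']`, `gx [c,c'] =
1 - (tt 1 c' + tt 1 c) + tt 2 (c + c') = (1 - tt 1 c) (1 - tt 1 c')`. -/
def S_WCN : Prop := ∀ (c c' : ℕ) (ℓ : List ℕ), 1 ≤ c → 1 ≤ c' → (∀ a ∈ ℓ, 1 ≤ a) →
  WW c c' ℓ ∈ Cone (ℓ.length + 2) (c + c' + ℓ.sum)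

/-- **PSM.** Positivity of the coefficients with `m ≥ 1`.  Proof.  Both sides are additive in `W`; by
`AddSubmonoid.closure_induction` take `W = st cyc R`.  `Polynomial.eval 1` is a ring homomorphism and
`(tt k c).eval 1 = C (X^c)`, so `(st cyc R).eval 1 =
X^len * C (∏ (1 - X^{c_i}) * (ρ-2)! * (1 - Σ X^{h-a} + (ρ-1) X^h))`, whose coefficient `m` is `0` unless
`len = m`.  With `1 - X^c = (1-X) qn c` and
`1 - Σ_{a ∈ R} X^{h-a} + (ρ-1) X^h = (1 - X^h) - Σ_a (X^{h-a} - X^h) = (1-X) gR R` the coefficient `m = len`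
is `(ρ-2)! (1-X)^(m+1) (∏ qn c_i) gR R`.  The term `b = q` is `0` as `m ≥ 1`, so the sum over
`range q` is the sum over `range (q+1)`, which is `(ρ-2)! conv (eul m) (∏ qn c_i * gR R) q` by EPS, and POS
applies (`cs = cyc.map Prod.snd`, `2 q ≤ M = cs.sum + R.sum`). -/
def S_PSM : Prop := ∀ (n M q m : ℕ), 1 ≤ m → 2 * q ≤ M → ∀ W ∈ Cone n M,
  0 ≤ ∑ b ∈ Finset.range q, ((W.eval 1).coeff m).coeff b * ((q - b : ℕ) : ℚ) ^ m

/-- **PSZ.** The constant coefficient.  Let `R0` be the list of all parts.  Proof.  The constant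
coefficient in `u`: by induction on `ℓ`, `(WW c c' ℓ)` with `u = 0` (map `Polynomial.map
(constantCoeff)` or `P ↦ P.map (evalRingHom 0)`) equals `(ℓ.length)! * gx` of the list `ℓ ++ [c, c']`
(computation (ii) of INS, `O (ρ-1) (gx R) = (ρ-1) gx (a :: R)`, because `ins` at `u = 0` is `O`), then
evaluate at `x = 1` and use POZ. -/
def S_PSZ : Prop := ∀ (c c' : ℕ) (ℓ : List ℕ) (q : ℕ), 1 ≤ c → 1 ≤ c' → (∀ a ∈ ℓ, 1 ≤ a) → 1 ≤ q →
  (∀ a ∈ ℓ ++ [c, c'], q ≤ (ℓ ++ [c, c']).sum - a) →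
  0 ≤ ∑ b ∈ Finset.range q, (((WW c c' ℓ).eval 1).coeff 0).coeff b

/-! ## 4. Signed subset sums and the count of two-row tableaux -/

/-- `ssum ℓ F = Σ_{S ⊂ ℓ} (-1)^|S| F |S| (sum S)` -/
def ssum : List ℕ → (ℕ → ℕ → ℚ) → ℚ
  | [], F => F 0 0
  | a :: ℓ, F => ssum ℓ F - ssum ℓ (fun s b => F (s + 1) (b + a))

/-- `f_s(u) = ∏_{i=1}^{n-2} (u - s + i)` -/
noncomputable def fpoly (n s : ℕ) : ℚ[X] :=
  ∏ i ∈ Finset.range (n - 2), (X - C (s : ℚ) + C ((i : ℚ) + 1))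

/-- **WCO.** The coefficients of `WW`.  Proof.  Induction on `ℓ`, for all `s0`, `m`, `b0`; `ssum` is additive
and homogeneous in `F`.  Coefficient `x^s` of `ins N a P` is
`(u + N - s) P_s - z^a (u - (s-1)) P_{s-1}` (no second term for `s = 0`), and
`fpoly (n+1) s = fpoly n s * (u - s + n - 1)`, `fpoly (n+1) (s+1) = (u - s) fpoly n s` for `n ≥ 2`. -/
def S_WCO : Prop := ∀ (c c' : ℕ) (ℓ : List ℕ) (s0 m b0 : ℕ),
  ((((WW c c' ℓ).coeff s0).coeff m).coeff b0 : ℚ) =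
    ssum (ℓ ++ [c, c']) (fun s b => if s = s0 ∧ b = b0 then (fpoly (ℓ.length + 2) s).coeff m else 0)

/-- **VAL.** Evaluation.  Proof from WCO: `((W.eval 1).coeff m).coeff b0 = Σ_{s0} (((W.coeff s0).coeff m).coeff b0)`
(`Polynomial.eval_eq_sum_range`), so it equals
`ssum (ℓ ++ [c,c']) (fun s b => if b = b0 then (fpoly _ s).coeff m else 0)` (all `s ≤` the length; take the
sum over `s0` up to a bound larger than the degree and the length), and then sum over `m`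
(`Polynomial.eval_eq_sum_range'`) and `b0 < q`.  Needs: `ssum` commutes with finite sums, and
`ssum_congr`: `ssum ℓ F = ssum ℓ G` if `F S.length S.sum = G S.length S.sum` for all `S <+ ℓ`. -/
def S_VAL : Prop := ∀ (c c' : ℕ) (ℓ : List ℕ) (q N D : ℕ),
  ((WW c c' ℓ).eval 1).natDegree ≤ D →
  (∀ s, (fpoly (ℓ.length + 2) s).natDegree ≤ D) →
  ∑ m ∈ Finset.range (D + 1), (∑ b ∈ Finset.range q,
      (((WW c c' ℓ).eval 1).coeff m).coeff b * ((q - b : ℕ) : ℚ) ^ m) * (N : ℚ) ^ m =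
    ssum (ℓ ++ [c, c']) (fun s b => if b < q then (fpoly (ℓ.length + 2) s).eval ((N : ℚ) * ((q - b : ℕ) : ℚ))
      else 0)

/-- number of tableaux with two rows, content the list (HEAD = LARGEST entry), second row of length `b`:
the largest entry occurs `e` times in row two, and the rest of the tableau has second row `b - e`
and first row `ℓ.sum - (b - e) ≥ b` -/
def cnt : List ℕ → ℕ → ℕ
  | [], b => if b = 0 then 1 else 0
  | A :: ℓ, b => ∑ e ∈ Finset.range (A + 1), if e ≤ b ∧ b + (b - e) ≤ ℓ.sum then cnt ℓ (b - e) else 0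

/-- coefficient of `z^b` in `∏ (1 + z + .. + z^A)` -/
def hom : List ℕ → ℤ → ℤ
  | [], b => if b = 0 then 1 else 0
  | A :: ℓ, b => ∑ e ∈ Finset.range (A + 1), hom ℓ (b - e)

/-- **CN1.** Proof.  `hom ℓ b = 0` for `b < 0`, `hom ℓ b = hom ℓ (ℓ.sum - b)` (induction, reflect the
sum).  Also `cnt ℓ b = 0` if `ℓ.sum < 2 b` (induction: `e ≤ A`, `b + (b - e) ≤ ℓ.sum`).  Then
induction on the list: the sum over `e` of `cnt ℓ (b-e) = hom ℓ (b-e) - hom ℓ (b-e-1)` over the allowed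
`e` (those with `b - e ≤ min (b, ℓ.sum - b)`, `e ≤ A`; the formula holds for them since then
`2 (b-e) ≤ ℓ.sum`; for `e > b` the difference of the `hom` is `0`) telescopes to
`hom ℓ (min (b, ℓ.sum - b)) - hom ℓ (b - A - 1)`, and `hom ℓ (min (b, ℓ.sum - b)) = hom ℓ b` by symmetry; and
`hom (A :: ℓ) b - hom (A :: ℓ) (b-1) = hom ℓ b - hom ℓ (b - A - 1)`.  (Here `b - A ≤ min (b, ℓ.sum - b)` because
`2 b ≤ A + ℓ.sum`.) -/
def S_CN1 : Prop := ∀ (ℓ : List ℕ) (b : ℕ), 2 * b ≤ ℓ.sum →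
  ((cnt ℓ b : ℕ) : ℤ) = hom ℓ b - hom ℓ (b - 1)

/-- **CN2.** Proof.  With power series: `Σ_b hom ℓ b z^b = ∏ (1 - z^{A+1}) / (1-z)^n`.  Prove by induction
on the list `ℓ` the more general statement, for every `j ≥ 0` extra factors: for all `t : ℤ`,
`Σ` form: let `H r ℓ t = ssum ℓ (fun s b => cc r (t - N b - s))` with `cc r t = C(t + r, r)` for `t ≥ 0` and `0` for
`t < 0`; then `H (r + 1) ℓ t - H (r+1) ℓ (t-1) = H r ℓ t` (Pascal), and
`ssum (a :: ℓ) ..  = H r ℓ t - H r ℓ (t - N a - 1)`.  Claim: `hom (ℓ.map (N * ·)) t = H (n-1) ℓ t` for `n = ℓ.length ≥ 1`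
(induction: `hom (A :: ℓ') t - hom (A :: ℓ') (t-1) = hom ℓ' t - hom ℓ' (t - A - 1)`, and both sides vanish for
`t < 0`), so the difference of two consecutive ones is `H (n-2) ℓ t` for `n ≥ 2`. -/
def S_CN2 : Prop := ∀ (ℓ : List ℕ) (N t : ℕ), 2 ≤ ℓ.length →
  ((hom (ℓ.map (N * ·)) t - hom (ℓ.map (N * ·)) (t - 1) : ℤ) : ℚ) =
    ssum ℓ (fun s b => if N * b + s ≤ t then
      (((t - N * b - s) + (ℓ.length - 2)).choose (ℓ.length - 2) : ℚ) else 0)

/-- **CMP.** Comparison.  Proof.  `ssum_congr`: let `S <+ ℓ`, `s = S.length`, `b = S.sum`, `n = ℓ.length`.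
(1) `s = 0` gives `b = 0 < q`, both sides agree (`fpoly n s` at `N (q-b)` is
`(n-2)! C(N (q-b) - s + n-2, n-2)` whenever `s ≤ N (q-b)`: `∏_{i<n-2} (v + i + 1) = (n-2)! C(v+n-2, n-2)`,
`Nat.ascFactorial`).
(2) If `s ≥ n - 1` then `b ≥ ℓ.sum - max ≥ q`, so for `s ≥ 1` both conditions `N b + s ≤ q N`, `b < q` fail.
(3) `1 ≤ s ≤ n - 2`: if `b ≥ q` both sides are `0`; if `b < q` and `s ≤ N (q - b)` they agree as in (1); if
`b < q` and `s > N (q-b) ≥ 1` then one factor of `fpoly n s` vanishes at `N (q-b)`: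
`i + 1 = s - N (q-b) ∈ [1, n-2]`. -/
def S_CMP : Prop := ∀ (ℓ : List ℕ) (N q : ℕ), 2 ≤ ℓ.length → 1 ≤ N → 1 ≤ q → (∀ a ∈ ℓ, 1 ≤ a) →
  (∀ a ∈ ℓ, q ≤ ℓ.sum - a) →
  (((ℓ.length - 2).factorial : ℕ) : ℚ) * ssum ℓ (fun s b => if N * b + s ≤ q * N then
      (((q * N - N * b - s) + (ℓ.length - 2)).choose (ℓ.length - 2) : ℚ) else 0) =
    ssum ℓ (fun s b => if b < q then (fpoly ℓ.length s).eval ((N : ℚ) * ((q - b : ℕ) : ℚ)) else 0)

/-- **TAB.** Tableaux with at most two rows.  Proof.  Induction on `n`; `cnt` of the list with head `A (n-1)`.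
A tableau `T` with all entries `< n`: in row 1 the entries `n - 1` are the last `e` cells, in row 0 the last
`A (n-1) - e`; delete them: shape `D'` with row lengths `p - (A (n-1) - e)`, `q - e`, where
`q ≤ p - (A (n-1) - e)` because the entries of row 0 above the first `q` cells of row 1 are `< n - 1`
(so `D'` is a diagram).  The converse: fill the cells of `D \ D'` with `n - 1`.  (Alternatively encode `T` by
the numbers `#{j | T 1 j < v}`, which determine both rows.) -/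
def S_TAB : Prop := ∀ (n : ℕ) (D : YoungDiagram) (A : ℕ → ℕ), (∀ v, n ≤ v → A v = 0) →
  D.rowLen 2 = 0 → D.card = ∑ v ∈ Finset.range n, A v →
  Nat.card {T : SemistandardYoungTableau D //
      ∀ v : ℕ, Nat.card {c : ℕ × ℕ // c ∈ D ∧ T c.1 c.2 = v} = A v}
    = cnt (((List.range n).map A).reverse) (D.rowLen 1)

/-- **CZR.** The smallest entry (last in the list) is never in row two.  Proof.  Induction on `ℓ`, from
`cnt [A] b = if b = 0 then 1 else 0`. -/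
def S_CZR : Prop := ∀ (ℓ : List ℕ) (A b : ℕ), ℓ.sum < b → cnt (ℓ ++ [A]) b = 0

/-- **CAR.** If a filling with content `A` exists then the number of cells is the sum of `A`.  Proof.  Sum
over `v < n` of the fibres of `T` on `D.cells`; for `v ≥ n` they are empty. -/
def S_CAR : Prop := ∀ (n : ℕ) (D : YoungDiagram) (A : ℕ → ℕ), (∀ v, n ≤ v → A v = 0) →
  ∀ T : SemistandardYoungTableau D,
    (∀ v : ℕ, Nat.card {c : ℕ × ℕ // c ∈ D ∧ T c.1 c.2 = v} = A v) →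
    D.card = ∑ v ∈ Finset.range n, A v

/-- the final statement -/
def S_MAIN : Prop := ∀ la mu : YoungDiagram, la.rowLen 2 = 0 → ∃ P : Polynomial ℚ,
  (∀ k : ℕ, 1 ≤ k → ∀ D : YoungDiagram, (∀ i j : ℕ, (i, j) ∈ D ↔ j < k * la.rowLen i) →
    ((Nat.card {T : SemistandardYoungTableau D //
        ∀ v : ℕ, Nat.card {c : ℕ × ℕ // c ∈ D ∧ T c.1 c.2 = v} = k * mu.rowLen v} : ℕ) : ℚ)
      = P.eval (k : ℚ)) ∧
  ∀ n : ℕ, 0 ≤ P.coeff n

/-- **FIN.** Assembly (helper668). -/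
def S_FIN : Prop := S_PSM → S_PSZ → S_VAL → S_CN1 → S_CN2 → S_CMP → S_TAB → S_CZR → S_CAR → S_WCN →
  S_MAIN

end Pool.Agent.Run7.h668.TK
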