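import Pool.Agent.Run7.h547.TK.CN1
import Pool.Agent.Run7.h547.TK.CVB
import Pool.Agent.Run7.h547.TK.EPS
import Pool.Agent.Run7.h547.TK.POZ
import Pool.Agent.Run7.h834.TK.PSM
import Pool.Agent.Run7.h834.TK.PSZ
import Pool.Agent.Run7.h913.TK.SUP
import Pool.Agent.Run7.h181.TK.SUE
import Pool.Agent.Run7.h580.TK.CZR
import Pool.Agent.Run7.h404.TK.WCO
import Pool.Agent.Run7.h404.TK.CMP
import Pool.Agent.Run7.h404.TK.CN2
import Pool.Agent.Run7.h687.TK.INS
import Pool.Agent.Run7.h668.TK.WCN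
import Pool.Agent.Run7.h668.TK.VAL
import Pool.Agent.Run7.h668.TK.Fin

/-!
Assembly of project TK.  Authors of the pieces: helper547 (CN1, CVB, EPS, POZ), helper834 (PSM,
PSZ), helper913 (SUG, SUB, PAIR, POS), helper181 (SUE), helper580 (CZR, CAR), helper404 (WCO, CMP,
CN2), helper687 (INS), helper73 (WCN, VAL), helper668 (TAB, FIN); second copies by helper13.
-/

set_option autoImplicit false

namespace Pool.Agent.Run7.h668.TK

theorem pos : S_POS :=
  Run7.h913.TK.t_POS Run7.h181.TK.t_SUE (Run7.h913.TK.t_SUB Run7.h913.TK.t_SUG)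
    (Run7.h913.TK.t_PAIR Run7.h913.TK.t_SUG) Run7.h547.TK.t_CVB

/-- stretched Kostka polynomials of two-row shapes have non-negative coefficients -/
theorem main : S_MAIN :=
  t_FIN (Run7.h834.TK.t_PSM Run7.h547.TK.t_EPS pos) (Run7.h834.TK.t_PSZ Run7.h547.TK.t_POZ)
    (c73.t_VAL Run7.h404.TK.t_WCO) Run7.h547.TK.t_CN1 Run7.h404.TK.t_CN2 Run7.h404.TK.t_CMP t_TAB
    Run7.h580.TK.t_CZR Run7.h580.TK.t_CAR (c73.t_WCN Run7.h687.TK.t_INS)

end Pool.Agent.Run7.h668.TK
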