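import Pool.Agent.Run7.h668.TK.Iface

set_option autoImplicit false

namespace Pool.Agent.Run7.h668.TK

open Finset

/-- valid sequences of lengths of the second row -/
def SeqOK (A : ℕ → ℕ) (n q : ℕ) (b : ℕ → ℕ) : Prop :=
  b 0 = 0 ∧ (∀ v, v < n → b v ≤ b (v + 1) ∧ b (v + 1) ≤ b v + A v ∧
    b (v + 1) + b v ≤ ∑ w ∈ range v, A w) ∧ ∀ v, n ≤ v → b v = q

theorem rev_range_succ (A : ℕ → ℕ) (n : ℕ) :
    ((List.range (n + 1)).map A).reverse = A n :: ((List.range n).map A).reverse := by
  simp [List.range_succ]

theorem rev_range_sum (A : ℕ → ℕ) (n : ℕ) :
    (((List.range n).map A).reverse).sum = ∑ w ∈ range n, A w := by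
  induction n with
  | zero => simp
  | succ n ih => rw [rev_range_succ, List.sum_cons, ih, sum_range_succ]; ring

theorem seq_card (A : ℕ → ℕ) : ∀ n q, ∃ S : Finset (ℕ → ℕ), (∀ b, b ∈ S ↔ SeqOK A n q b) ∧
    S.card = cnt (((List.range n).map A).reverse) q := by
  classical
  intro n
  induction n with
  | zero =>
    intro q
    by_cases hq : q = 0
    · subst hq
      refine ⟨{fun _ => 0}, ?_, by simp [cnt]⟩
      intro b
      rw [mem_singleton]
      constructor
      · rintro rfl
        exact ⟨rfl, fun v hv => absurd hv (by omega), fun v _ => rfl⟩
      · rintro ⟨_, _, h⟩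
        funext v
        exact h v (by omega)
    · refine ⟨∅, ?_, by simp [cnt, hq]⟩
      intro b
      simp only [notMem_empty, false_iff]
      rintro ⟨h0, _, h⟩
      exact hq ((h 0 (le_refl _)).symm.trans h0)
  | succ n ih =>
    intro q
    choose S hS hc using ih
    set cond : ℕ → Prop := fun e => e ≤ q ∧ q + (q - e) ≤ ∑ w ∈ range n, A w with hcond
    set ext : (ℕ → ℕ) → (ℕ → ℕ) := fun b v => if v ≤ n then b v else q with hext
    refine ⟨((range (A n + 1)).filter cond).biUnion (fun e => (S (q - e)).image ext), ?_, ?_⟩
    · intro b
      rw [mem_biUnion]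
      constructor
      · rintro ⟨e, he, hb⟩
        rw [mem_filter, mem_range] at he
        obtain ⟨he1, he2, he3⟩ := he
        rw [mem_image] at hb
        obtain ⟨b', hb', rfl⟩ := hb
        rw [hS] at hb'
        obtain ⟨h0, h1, h2⟩ := hb'
        refine ⟨by simp [hext, h0], ?_, ?_⟩
        · intro v hv
          rcases Nat.lt_or_ge v n with hvn | hvn
          · have := h1 v hvn
            simp only [hext]
            rw [if_pos (by omega), if_pos (by omega)]
            exact this
          · have hvn' : v = n := by omega
            subst hvn'
            simp only [hext]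
            rw [if_pos (le_refl _), if_neg (by omega), h2 v (le_refl _)]
            refine ⟨by omega, by omega, ?_⟩
            exact he3
        · intro v hv
          simp only [hext]
          rw [if_neg (by omega)]
      · rintro ⟨h0, h1, h2⟩
        have hn := h1 n (by omega)
        rw [h2 (n + 1) (le_refl _)] at hn
        refine ⟨q - b n, ?_, ?_⟩
        · rw [mem_filter, mem_range]
          refine ⟨by omega, by omega, ?_⟩
          have : q - (q - b n) = b n := by omega
          rw [this]; exact hn.2.2
        · rw [mem_image]
          refine ⟨fun v => b (min v n), ?_, ?_⟩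
          · rw [hS]
            refine ⟨by simpa using h0, ?_, ?_⟩
            · intro v hv
              have := h1 v (by omega)
              simp only
              rw [min_eq_left (by omega), min_eq_left (by omega)]
              exact this
            · intro v hv
              simp only
              rw [min_eq_right hv]; omega
          · funext v
            simp only [hext]
            split_ifs with hvn
            · rw [min_eq_left hvn]
            · exact (h2 v (by omega)).symm
    · rw [card_biUnion]
      · rw [rev_range_succ, cnt, rev_range_sum, sum_filter]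
        refine sum_congr rfl ?_
        intro e _
        split_ifs with hce
        · rw [card_image_of_injOn, hc]
          intro b1 hb1 b2 hb2 hbb
          rw [mem_coe, hS] at hb1 hb2
          funext v
          rcases Nat.le_total v n with hvn | hvn
          · have := congrFun hbb v
            simp only [hext] at this
            rw [if_pos hvn, if_pos hvn] at this
            exact this
          · rw [hb1.2.2 v hvn, hb2.2.2 v hvn]
        · rfl
      · intro e he e' he' hne
        rw [Function.onFun, disjoint_left]
        intro b hb hb'
        rw [mem_image] at hb hb'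
        obtain ⟨b1, hb1, rfl⟩ := hb
        obtain ⟨b2, hb2, hbb⟩ := hb'
        rw [hS] at hb1 hb2
        have h1 := congrFun hbb n
        simp only [hext, le_refl, if_true] at h1
        rw [hb1.2.2 n (le_refl _), hb2.2.2 n (le_refl _)] at h1
        rw [mem_coe, mem_filter] at he he'
        have := he.2.1
        have := he'.2.1
        omega

theorem seq_card' (A : ℕ → ℕ) (n q : ℕ) : Nat.card {b // SeqOK A n q b} =
    cnt (((List.range n).map A).reverse) q := by
  obtain ⟨S, hS, hc⟩ := seq_card A n q
  rw [← hc]
  exact Nat.subtype_card S hS

/-! conjugate of a monotone sequence -/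

theorem mono_of {s : ℕ → ℕ} {n : ℕ} (h : ∀ v, v < n → s v ≤ s (v + 1)) {v w : ℕ} (hvw : v ≤ w)
    (hw : w ≤ n) : s v ≤ s w := by
  induction w, hvw using Nat.le_induction with
  | base => exact le_refl _
  | succ w hvw ih => exact (ih (by omega)).trans (h w (by omega))

/-- position of `j` -/
def cj (s : ℕ → ℕ) (n j : ℕ) : ℕ := ((range n).filter fun v => s (v + 1) ≤ j).card

theorem cj_lt {s : ℕ → ℕ} {n j : ℕ} (h0 : s 0 = 0) (h : ∀ v, v < n → s v ≤ s (v + 1))
    (v : ℕ) (hv : v ≤ n) : cj s n j < v ↔ j < s v := by
  constructor
  · intro hc
    by_contra hjs
    have hjs' : s v ≤ j := by omega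
    have : range v ⊆ (range n).filter fun v => s (v + 1) ≤ j := by
      intro w hw
      rw [mem_range] at hw
      rw [mem_filter, mem_range]
      exact ⟨by omega, (mono_of h (by omega : w + 1 ≤ v) hv).trans hjs'⟩
    have := card_le_card this
    rw [card_range] at this
    unfold cj at hc
    omega
  · intro hjs
    have hv0 : v ≠ 0 := by rintro rfl; omega
    have : (range n).filter (fun v => s (v + 1) ≤ j) ⊆ range (v - 1) := by
      intro w hw
      rw [mem_filter, mem_range] at hw
      rw [mem_range]
      by_contra hwv
      have := mono_of h (by omega : v ≤ w + 1) (by omega)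
      omega
    have := card_le_card this
    rw [card_range] at this
    unfold cj
    omega

end Pool.Agent.Run7.h668.TK
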