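import Pool.Agent.Run7.h668.TK.Seq

set_option autoImplicit false

namespace Pool.Agent.Run7.h668.TK

open Finset

theorem mem_two {D : YoungDiagram} (h2 : D.rowLen 2 = 0) (i j : ℕ) :
    (i, j) ∈ D ↔ (i = 0 ∧ j < D.rowLen 0) ∨ (i = 1 ∧ j < D.rowLen 1) := by
  rw [YoungDiagram.mem_iff_lt_rowLen]
  constructor
  · intro h
    rcases Nat.lt_or_ge i 2 with hi | hi
    · interval_cases i
      · exact Or.inl ⟨rfl, h⟩
      · exact Or.inr ⟨rfl, h⟩
    · have := D.rowLen_anti 2 i hi
      omega
  · rintro (⟨rfl, h⟩ | ⟨rfl, h⟩) <;> exact h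

theorem fiber_card {D : YoungDiagram} (h2 : D.rowLen 2 = 0) (T : ℕ → ℕ → ℕ) (v : ℕ) :
    Nat.card {c : ℕ × ℕ // c ∈ D ∧ T c.1 c.2 = v} =
      ((range (D.rowLen 0)).filter fun j => T 0 j = v).card +
        ((range (D.rowLen 1)).filter fun j => T 1 j = v).card := by
  classical
  have hS : ∀ c : ℕ × ℕ, c ∈ (((range (D.rowLen 0)).filter fun j => T 0 j = v).image
      (fun j => ((0 : ℕ), j)) ∪ ((range (D.rowLen 1)).filter fun j => T 1 j = v).image
      (fun j => ((1 : ℕ), j))) ↔ c ∈ D ∧ T c.1 c.2 = v := by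
    rintro ⟨i, j⟩
    rw [mem_two h2]
    simp only [mem_union, mem_image, mem_filter, mem_range, Prod.mk.injEq]
    constructor
    · rintro (⟨j', ⟨h1, h3⟩, rfl, rfl⟩ | ⟨j', ⟨h1, h3⟩, rfl, rfl⟩)
      · exact ⟨Or.inl ⟨rfl, h1⟩, h3⟩
      · exact ⟨Or.inr ⟨rfl, h1⟩, h3⟩
    · rintro ⟨⟨rfl, h1⟩ | ⟨rfl, h1⟩, h3⟩
      · exact Or.inl ⟨j, ⟨h1, h3⟩, rfl, rfl⟩
      · exact Or.inr ⟨j, ⟨h1, h3⟩, rfl, rfl⟩
  rw [Nat.subtype_card _ hS, card_union_of_disjoint, card_image_of_injective,
    card_image_of_injective]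
  · intro a b h; simpa using h
  · intro a b h; simpa using h
  · rw [disjoint_left]
    rintro ⟨i, j⟩ h1 h3
    simp only [mem_image, mem_filter, mem_range, Prod.mk.injEq] at h1 h3
    obtain ⟨_, _, h4, _⟩ := h1
    obtain ⟨_, _, h5, _⟩ := h3
    omega

theorem card_two {D : YoungDiagram} (h2 : D.rowLen 2 = 0) : D.card = D.rowLen 0 + D.rowLen 1 := by
  have h := fiber_card h2 (fun _ _ => 0) 0
  have h1 : Nat.card {c : ℕ × ℕ // c ∈ D ∧ (fun _ _ : ℕ => (0 : ℕ)) c.1 c.2 = 0} = D.cells.card :=
    Nat.subtype_card D.cells (by intro c; simp)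
  rw [h1] at h
  simpa using h

/-- number of `j < L` with `g j < v` -/
def below (g : ℕ → ℕ) (L v : ℕ) : ℕ := ((range L).filter fun j => g j < v).card

theorem below_succ (g : ℕ → ℕ) (L v : ℕ) :
    below g L (v + 1) = below g L v + ((range L).filter fun j => g j = v).card := by
  unfold below
  rw [← card_union_of_disjoint]
  · congr 1
    ext j
    simp only [mem_union, mem_filter, mem_range]
    constructor
    · rintro ⟨h1, h3⟩
      rcases Nat.lt_or_ge (g j) v with h | h
      · exact Or.inl ⟨h1, h⟩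
      · exact Or.inr ⟨h1, by omega⟩
    · rintro (⟨h1, h3⟩ | ⟨h1, h3⟩)
      · exact ⟨h1, by omega⟩
      · exact ⟨h1, by omega⟩
  · rw [disjoint_left]
    intro j h1 h3
    rw [mem_filter] at h1 h3
    omega

theorem below_iff {g : ℕ → ℕ} {L : ℕ} (hg : ∀ j1 j2, j1 ≤ j2 → j2 < L → g j1 ≤ g j2) (v j : ℕ)
    (hj : j < L) : g j < v ↔ j < below g L v := by
  unfold below
  constructor
  · intro h
    have : range (j + 1) ⊆ (range L).filter fun j => g j < v := by
      intro i hi
      rw [mem_range] at hi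
      rw [mem_filter, mem_range]
      exact ⟨by omega, lt_of_le_of_lt (hg i j (by omega) hj) h⟩
    have := card_le_card this
    rw [card_range] at this
    omega
  · intro h
    by_contra hc
    have : (range L).filter (fun j => g j < v) ⊆ range j := by
      intro i hi
      rw [mem_filter, mem_range] at hi
      rw [mem_range]
      by_contra hij
      have := hg j i (by omega) hi.1
      omega
    have := card_le_card this
    rw [card_range] at this
    omega

theorem below_all {g : ℕ → ℕ} {L v : ℕ} (h : ∀ j, j < L → g j < v) : below g L v = L := by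
  unfold below
  rw [filter_true_of_mem, card_range]
  intro j hj
  exact h j (mem_range.mp hj)

section
variable {D : YoungDiagram} {n : ℕ} {A : ℕ → ℕ}

theorem entry_lt (hA : ∀ v, n ≤ v → A v = 0) (T : SemistandardYoungTableau D)
    (hT : ∀ v : ℕ, Nat.card {c : ℕ × ℕ // c ∈ D ∧ T c.1 c.2 = v} = A v) (i j : ℕ)
    (hij : (i, j) ∈ D) : T i j < n := by
  by_contra h
  have h1 := hT (T i j)
  rw [hA _ (by omega)] at h1
  have hfin : Finite {c : ℕ × ℕ // c ∈ D ∧ T c.1 c.2 = T i j} := by
    have : {c : ℕ × ℕ | c ∈ D ∧ T c.1 c.2 = T i j}.Finite :=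
      (D.cells.finite_toSet).subset (fun c hc => by simpa using hc.1)
    exact this.to_subtype
  have : Nonempty {c : ℕ × ℕ // c ∈ D ∧ T c.1 c.2 = T i j} := ⟨⟨(i, j), hij, rfl⟩⟩
  have := Nat.card_pos (α := {c : ℕ × ℕ // c ∈ D ∧ T c.1 c.2 = T i j})
  omega

theorem row_mono (T : SemistandardYoungTableau D) (i : ℕ) :
    ∀ j1 j2, j1 ≤ j2 → j2 < D.rowLen i → T i j1 ≤ T i j2 := by
  intro j1 j2 h h2
  exact T.row_weak_of_le h (YoungDiagram.mem_iff_lt_rowLen.mpr h2)

theorem below_add (h2 : D.rowLen 2 = 0) (T : SemistandardYoungTableau D)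
    (hT : ∀ v : ℕ, Nat.card {c : ℕ × ℕ // c ∈ D ∧ T c.1 c.2 = v} = A v) (v : ℕ) :
    below (T 0) (D.rowLen 0) v + below (T 1) (D.rowLen 1) v = ∑ w ∈ range v, A w := by
  induction v with
  | zero => simp [below]
  | succ v ih =>
    have h := hT v
    rw [fiber_card h2 (fun i j => T i j) v] at h
    rw [sum_range_succ, ← ih, ← h, below_succ, below_succ]
    ring

theorem seqOK_of (h2 : D.rowLen 2 = 0) (hA : ∀ v, n ≤ v → A v = 0)
    (T : SemistandardYoungTableau D)
    (hT : ∀ v : ℕ, Nat.card {c : ℕ × ℕ // c ∈ D ∧ T c.1 c.2 = v} = A v) :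
    SeqOK A n (D.rowLen 1) (fun v => below (T 1) (D.rowLen 1) v) := by
  refine ⟨by simp [below], ?_, ?_⟩
  · intro v _
    have e1 := below_add h2 T hT v
    have e2 := below_add h2 T hT (v + 1)
    rw [sum_range_succ] at e2
    have s0 := below_succ (T 0) (D.rowLen 0) v
    have s1 := below_succ (T 1) (D.rowLen 1) v
    have hle : below (T 1) (D.rowLen 1) (v + 1) ≤ below (T 0) (D.rowLen 0) v := by
      unfold below
      apply card_le_card
      intro j hj
      rw [mem_filter, mem_range] at hj ⊢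
      have hp := D.rowLen_anti 0 1 (by omega)
      have := T.col_strict (show 0 < 1 by omega) (YoungDiagram.mem_iff_lt_rowLen.mpr hj.1)
      exact ⟨by omega, by omega⟩
    beta_reduce
    refine ⟨by omega, by omega, by omega⟩
  · intro v hv
    apply below_all
    intro j hj
    have := entry_lt hA T hT 1 j (YoungDiagram.mem_iff_lt_rowLen.mpr hj)
    omega

theorem seq_inj (h2 : D.rowLen 2 = 0) (T T' : SemistandardYoungTableau D)
    (hT : ∀ v : ℕ, Nat.card {c : ℕ × ℕ // c ∈ D ∧ T c.1 c.2 = v} = A v)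
    (hT' : ∀ v : ℕ, Nat.card {c : ℕ × ℕ // c ∈ D ∧ T' c.1 c.2 = v} = A v)
    (h : ∀ v, below (T 1) (D.rowLen 1) v = below (T' 1) (D.rowLen 1) v) : T = T' := by
  have h' : ∀ v, below (T 0) (D.rowLen 0) v = below (T' 0) (D.rowLen 0) v := by
    intro v
    have e1 := below_add h2 T hT v
    have e2 := below_add h2 T' hT' v
    have := h v
    omega
  have key : ∀ x y : ℕ, (∀ v, x < v ↔ y < v) → x = y := by
    intro x y hxy
    have h1 := (hxy (y + 1)).mpr (by omega)
    have h3 := (hxy (x + 1)).mp (by omega)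
    omega
  apply SemistandardYoungTableau.ext
  intro i j
  by_cases hij : (i, j) ∈ D
  · rcases (mem_two h2 i j).mp hij with ⟨rfl, hj⟩ | ⟨rfl, hj⟩
    · apply key
      intro v
      rw [below_iff (row_mono T 0) v j hj, below_iff (row_mono T' 0) v j hj, h']
    · apply key
      intro v
      rw [below_iff (row_mono T 1) v j hj, below_iff (row_mono T' 1) v j hj, h]
  · rw [T.zeros hij, T'.zeros hij]

/-- the tableau of a sequence -/
theorem exists_tab (h2 : D.rowLen 2 = 0) (hA : ∀ v, n ≤ v → A v = 0)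
    (hD : D.card = ∑ v ∈ range n, A v) (b : ℕ → ℕ) (hb : SeqOK A n (D.rowLen 1) b) :
    ∃ T : SemistandardYoungTableau D,
      (∀ v : ℕ, Nat.card {c : ℕ × ℕ // c ∈ D ∧ T c.1 c.2 = v} = A v) ∧
      ∀ v, below (T 1) (D.rowLen 1) v = b v := by
  obtain ⟨b0, b1, b2⟩ := hb
  rw [card_two h2] at hD
  have hbn : b n = D.rowLen 1 := b2 n (le_refl _)
  have hbS : ∀ v, v ≤ n → b v ≤ ∑ w ∈ range v, A w := by
    intro v
    induction v with
    | zero => intro _; simp [b0]
    | succ v ih =>
      intro hv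
      have := ih (by omega)
      have := (b1 v (by omega)).2.1
      rw [sum_range_succ]; omega
  set a : ℕ → ℕ := fun v => ∑ w ∈ range v, A w - b v with ha
  have a0 : a 0 = 0 := by simp [ha]
  have a1 : ∀ v, v < n → a v ≤ a (v + 1) := by
    intro v hv
    have h3 := b1 v hv
    have := hbS v (by omega)
    simp only [ha]
    rw [sum_range_succ]; omega
  have han : a n = D.rowLen 0 := by simp only [ha]; rw [hbn]; omega
  have b1' : ∀ v, v < n → b v ≤ b (v + 1) := fun v hv => (b1 v hv).1
  have hpq := D.rowLen_anti 0 1 (by omega)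
  have cmono : ∀ (s : ℕ → ℕ) (j1 j2 : ℕ), j1 ≤ j2 → cj s n j1 ≤ cj s n j2 := by
    intro s j1 j2 h
    unfold cj
    apply card_le_card
    intro v hv
    rw [mem_filter] at hv ⊢
    exact ⟨hv.1, hv.2.trans h⟩
  have ca : ∀ v, v ≤ n → ∀ j, cj a n j < v ↔ j < a v := fun v hv j => cj_lt a0 a1 v hv
  have cb : ∀ v, v ≤ n → ∀ j, cj b n j < v ↔ j < b v := fun v hv j => cj_lt b0 b1' v hv
  let E : ℕ → ℕ → ℕ := fun i j =>
    if i = 0 ∧ j < D.rowLen 0 then cj a n j else if i = 1 ∧ j < D.rowLen 1 then cj b n j else 0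
  have E0 : ∀ j, j < D.rowLen 0 → E 0 j = cj a n j := by
    intro j hj; simp [E, hj]
  have E1 : ∀ j, j < D.rowLen 1 → E 1 j = cj b n j := by
    intro j hj; simp [E, hj]
  let T : SemistandardYoungTableau D :=
    { entry := E
      row_weak' := by
        intro i j1 j2 hj hm
        rcases (mem_two h2 i j2).mp hm with ⟨rfl, hj2⟩ | ⟨rfl, hj2⟩
        · rw [E0 _ hj2, E0 _ (by omega)]; exact cmono _ _ _ (by omega)
        · rw [E1 _ hj2, E1 _ (by omega)]; exact cmono _ _ _ (by omega)
      col_strict' := by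
        intro i1 i2 j hi hm
        rcases (mem_two h2 i2 j).mp hm with ⟨rfl, hj2⟩ | ⟨rfl, hj2⟩
        · omega
        · have : i1 = 0 := by omega
          subst this
          rw [E1 _ hj2, E0 _ (by omega)]
          have hvn : cj b n j < n := (cb n (le_refl _) j).mpr (by rw [hbn]; exact hj2)
          have h3 := (cb (cj b n j + 1) (by omega) j).mp (by omega)
          have h4 := (b1 (cj b n j) hvn).2.2
          have h5 := hbS (cj b n j) (by omega)
          apply (ca (cj b n j) (by omega) j).mpr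
          simp only [ha]
          omega
      zeros' := by
        intro i j hm
        rw [mem_two h2] at hm
        simp only [E]
        rw [if_neg (by tauto), if_neg (by tauto)] }
  have T0 : ∀ j, j < D.rowLen 0 → T 0 j = cj a n j := E0
  have T1 : ∀ j, j < D.rowLen 1 → T 1 j = cj b n j := E1
  have fib : ∀ (s : ℕ → ℕ) (L : ℕ) (g : ℕ → ℕ), (∀ j, j < L → g j = cj s n j) → s n = L →
      s 0 = 0 → (∀ v, v < n → s v ≤ s (v + 1)) → ∀ v, v < n →
      ((range L).filter fun j => g j = v).card = s (v + 1) - s v := by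
    intro s L g hg hs s0 s1 v hv
    have : (range L).filter (fun j => g j = v) = Ico (s v) (s (v + 1)) := by
      ext j
      rw [mem_filter, mem_range, mem_Ico]
      have hle := mono_of s1 (by omega : v + 1 ≤ n) (le_refl n)
      have k1 := cj_lt (j := j) s0 s1 v (by omega)
      have k2 := cj_lt (j := j) s0 s1 (v + 1) (by omega)
      constructor
      · rintro ⟨h1, h3⟩
        rw [hg j h1] at h3
        have q2 := k2.mp (by omega)
        have q1 : ¬ j < s v := fun h => by have := k1.mpr h; omega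
        omega
      · rintro ⟨h1, h3⟩
        have hjL : j < L := by omega
        refine ⟨hjL, ?_⟩
        rw [hg j hjL]
        have q2 := k2.mpr h3
        have q1 : ¬ cj s n j < v := fun h => by have := k1.mp h; omega
        omega
    rw [this, Nat.card_Ico]
  refine ⟨T, ?_, ?_⟩
  · intro v
    rw [fiber_card h2 (fun i j => T i j) v]
    rcases Nat.lt_or_ge v n with hv | hv
    · rw [fib a _ (fun j => T 0 j) T0 han a0 a1 v hv, fib b _ (fun j => T 1 j) T1 hbn b0 b1' v hv]
      have h3 := b1 v hv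
      have h4 := hbS v (by omega)
      simp only [ha]
      rw [sum_range_succ]; omega
    · rw [hA v hv, filter_false_of_mem, filter_false_of_mem]
      · rfl
      · intro j hj
        rw [mem_range] at hj
        have := (cb n (le_refl _) j).mpr (by rw [hbn]; exact hj)
        rw [T1 j hj]; omega
      · intro j hj
        rw [mem_range] at hj
        have := (ca n (le_refl _) j).mpr (by rw [han]; exact hj)
        rw [T0 j hj]; omega
  · intro v
    rcases Nat.lt_or_ge n v with hv | hv
    · rw [b2 v (by omega)]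
      apply below_all
      intro j hj
      have := (cb n (le_refl _) j).mpr (by rw [hbn]; exact hj)
      rw [T1 j hj]; omega
    · unfold below
      have hle := mono_of b1' hv (le_refl n)
      have : (range (D.rowLen 1)).filter (fun j => T 1 j < v) = range (b v) := by
        ext j
        rw [mem_filter, mem_range, mem_range]
        constructor
        · rintro ⟨h1, h3⟩
          rw [T1 j h1] at h3
          exact (cb v hv j).mp h3
        · intro h
          have hj : j < D.rowLen 1 := by omega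
          refine ⟨hj, ?_⟩
          rw [T1 j hj]
          exact (cb v hv j).mpr h
      rw [this, card_range]

end

theorem t_TAB : S_TAB := by
  intro n D A hA h2 hD
  rw [← seq_card']
  apply Nat.card_eq_of_bijective
    (fun T : {T : SemistandardYoungTableau D //
      ∀ v : ℕ, Nat.card {c : ℕ × ℕ // c ∈ D ∧ T c.1 c.2 = v} = A v} =>
      (⟨fun v => below (T.1 1) (D.rowLen 1) v, seqOK_of h2 hA T.1 T.2⟩ :
        {b // SeqOK A n (D.rowLen 1) b}))
  constructor
  · rintro ⟨T, hT⟩ ⟨T', hT'⟩ h
    rw [Subtype.mk.injEq] at h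
    apply Subtype.ext
    exact seq_inj h2 T T' hT hT' (fun v => congrFun h v)
  · rintro ⟨b, hb⟩
    obtain ⟨T, hT, h⟩ := exists_tab h2 hA hD b hb
    exact ⟨⟨T, hT⟩, Subtype.ext (funext h)⟩

end Pool.Agent.Run7.h668.TK
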