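-- copy of the file of helper73 (Pool/Agent/Run7/h73/TK/WCN.lean), proof by helper73
import Pool.Agent.Run7.h668.TK.Iface
/-! Project TK (helper668): piece WCN (helper73). -/
set_option autoImplicit false

namespace Pool.Agent.Run7.h668.TK.c73

open Pool.Agent.Run7.h668.TK
open Polynomial

lemma tt_mul (k k' c c' : ℕ) : tt k c * tt k' c' = tt (k + k') (c + c') := by
  simp only [tt, pow_add, C_mul]
  ring

lemma gx_pair (c c' : ℕ) : gx [c, c'] = (1 - tt 1 c) * (1 - tt 1 c') := by
  have h : tt 1 c * tt 1 c' = tt 2 (c + c') := tt_mul 1 1 c c'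
  have h1 : c + c' - c = c' := by omega
  have h2 : c + c' - c' = c := by omega
  simp only [gx, List.map_cons, List.map_nil, List.sum_cons, List.sum_nil, List.length_cons,
    List.length_nil, add_zero, zero_add, h1, h2]
  norm_num
  rw [← h]
  ring

theorem t_WCN : S_INS → S_WCN := by
  intro hI c c' ℓ hc hc' hℓ
  induction ℓ with
  | nil =>
    refine AddSubmonoid.subset_closure ⟨[], [c, c'], ?_, ?_⟩
    · refine ⟨by simp, by simp, ?_, by simp, by simp⟩
      intro a ha
      simp only [List.mem_cons, List.not_mem_nil, or_false] at ha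
      rcases ha with rfl | rfl <;> assumption
    · simp [WW, st, gx_pair]
  | cons a ℓ ih =>
    have h1 := ih (fun b hb => hℓ b (List.mem_cons_of_mem _ hb))
    have h2 := hI (ℓ.length + 2) (c + c' + ℓ.sum) a (hℓ a List.mem_cons_self) _ h1
    have h3 : ℓ.length + 2 - 1 = ℓ.length + 1 := by omega
    rw [h3] at h2
    have h4 : c + c' + ℓ.sum + a = c + c' + (a :: ℓ).sum := by simp; ring
    rw [h4] at h2
    exact h2

end Pool.Agent.Run7.h668.TK.c73
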